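import Pool.Agent.TH704.EqLen.Core

/-!
# From positions to schedules
-/

namespace Pool.Agent.TH704.EqLen

open Finset

/-- the job executed on track `l` in a period with descriptor `e` -/
def cc (a : ℕ → ℕ) (e : Bool × Gad) (l : ℕ) : ℕ :=
  if e.1 = true then
    if l = e.2.1 then (if a l < e.2.2.2.1 then 1 else if e.2.2.2.2.1 < a l then 2 else 0) else
    if l = e.2.2.1 then (if a l < e.2.2.2.2.2.1 then 3 else if e.2.2.2.2.2.2 < a l then 4 else 0)
    else 5 + l
  else 5 + l

theorem cc_lt (a : ℕ → ℕ) (e : Bool × Gad) {m l : ℕ} (h : l < m) : cc a e l < m + 5 := by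
  unfold cc
  split_ifs <;> omega

theorem cc_inj {m D : ℕ} (a : ℕ → ℕ) (e : Bool × Gad) (ok : Okg m D e) (hs : Sat a e) {l l' : ℕ}
    (h : cc a e l = cc a e l') : l = l' := by
  unfold Sat at hs
  unfold cc at h
  unfold Okg at ok
  by_cases he : e.1 = true
  · have hs := hs he
    simp only [he, if_true] at h ok
    obtain ⟨o1, -⟩ := ok
    by_cases h1 : l = e.2.1
    · by_cases h2 : l' = e.2.1
      · omega
      · rw [if_pos h1, if_neg h2] at h
        by_cases h3 : l' = e.2.2.1
        · rw [if_pos h3] at h
          exfalso
          apply hs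
          rw [← h1, ← h3]
          split_ifs at h <;> omega
        · rw [if_neg h3] at h
          split_ifs at h <;> omega
    · rw [if_neg h1] at h
      by_cases h2 : l' = e.2.1
      · rw [if_pos h2] at h
        by_cases h3 : l = e.2.2.1
        · rw [if_pos h3] at h
          exfalso
          apply hs
          rw [← h2, ← h3]
          split_ifs at h <;> omega
        · rw [if_neg h3] at h
          split_ifs at h <;> omega
      · rw [if_neg h2] at h
        by_cases h3 : l = e.2.2.1
        · by_cases h4 : l' = e.2.2.1
          · omega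
          · rw [if_pos h3, if_neg h4] at h
            split_ifs at h <;> omega
        · by_cases h4 : l' = e.2.2.1
          · rw [if_neg h3, if_pos h4] at h
            split_ifs at h <;> omega
          · rw [if_neg h3, if_neg h4] at h
            omega
  · rw [if_neg he, if_neg he] at h
    omega

theorem cc_spec {m D : ℕ} (hD : 3 ≤ D) (a : ℕ → ℕ) (e : Bool × Gad) (ok : Okg m D e) {l : ℕ}
    (ha : 1 ≤ a l ∧ a l ≤ D - 2) : pres e (cc a e l) = true ∧
      lo D e.2 (cc a e l) ≤ l * D + a l ∧ l * D + a l ≤ hi D e.2 (cc a e l) := by
  have plain : lo D e.2 (5 + l) ≤ l * D + a l ∧ l * D + a l ≤ hi D e.2 (5 + l) := by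
    unfold lo hi
    rw [if_neg (by omega), if_neg (by omega), if_neg (by omega), if_neg (by omega),
      if_neg (by omega), if_neg (by omega), if_neg (by omega), if_neg (by omega),
      if_neg (by omega), if_neg (by omega), Nat.add_sub_cancel_left]
    omega
  by_cases he : e.1 = true
  · obtain ⟨b, i, j, u1, u2, v1, v2⟩ := e
    unfold Okg at ok
    simp only at he ok plain ⊢
    subst he
    simp only [if_true] at ok
    obtain ⟨o1, o2, o3, o4, o5, o6, o7, o8⟩ := ok
    have hij : i * D + D ≤ j * D := by
      have h3 : (i + 1) * D ≤ j * D := Nat.mul_le_mul_right D o1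
      have h4 : (i + 1) * D = i * D + D := by ring
      omega
    unfold cc
    simp only [if_true]
    by_cases h1 : l = i
    · subst h1
      rw [if_pos rfl]
      by_cases h2 : a l < u1
      · rw [if_pos h2]
        refine ⟨by simp [pres], ?_⟩
        simp only [lo, hi]
        norm_num
        omega
      · rw [if_neg h2]
        by_cases h3 : u2 < a l
        · rw [if_pos h3]
          refine ⟨by simp [pres], ?_⟩
          simp only [lo, hi]
          norm_num
          omega
        · rw [if_neg h3]
          refine ⟨by simp [pres], ?_⟩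
          simp only [lo, hi]
          norm_num
          omega
    · rw [if_neg h1]
      by_cases h4 : l = j
      · subst h4
        rw [if_pos rfl]
        by_cases h2 : a l < v1
        · rw [if_pos h2]
          refine ⟨by simp [pres], ?_⟩
          simp only [lo, hi]
          norm_num
          omega
        · rw [if_neg h2]
          by_cases h3 : v2 < a l
          · rw [if_pos h3]
            refine ⟨by simp [pres], ?_⟩
            simp only [lo, hi]
            norm_num
            omega
          · rw [if_neg h3]
            refine ⟨by simp [pres], ?_⟩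
            simp only [lo, hi]
            norm_num
            omega
      · rw [if_neg h4]
        refine ⟨?_, plain⟩
        unfold pres
        simp only [if_true, Nat.add_sub_cancel_left, Bool.or_eq_true, decide_eq_true_eq,
          Bool.and_eq_true, Bool.not_eq_true', decide_eq_false_iff_not]
        exact Or.inr ⟨h1, h4⟩
  · have : cc a e l = 5 + l := by unfold cc; rw [if_neg he]
    rw [this]
    refine ⟨?_, plain⟩
    unfold pres
    rw [if_neg he, decide_eq_true_eq]
    omega

/-- Completeness: positions which satisfy all gadgets give a schedule with at most `5 * T` tardy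
jobs. -/
theorem complete {m D T : ℕ} (hD : 3 ≤ D) (hm : 0 < m) (e : ℕ → Bool × Gad)
    (ok : ∀ t < T, Okg m D (e t)) (a : ℕ → ℕ) (ha : ∀ l < m, 1 ≤ a l ∧ a l ≤ D - 2)
    (hs : ∀ t < T, Sat a (e t)) :
    ∃ (M : Fin (T * (m + 5)) → Fin m) (S : Fin (T * (m + 5)) → ℝ),
      IsSchedule (m * D) (fun q => rl m D (e (q / (m + 5))) (q / (m + 5)) (q % (m + 5))) M S ∧
      {q | Tardy (m * D)
        (fun q => du m D (e (q / (m + 5))) (q / (m + 5)) (q % (m + 5))) S q}.ncard ≤ 5 * T := by
  classical
  simp only [← card_eq_ncard]
  set P := m * D with hP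
  have hPpos : 0 < P := Nat.mul_pos hm (by omega)
  have ql : ∀ q : Fin (T * (m + 5)), (q : ℕ) / (m + 5) < T := fun q =>
    Nat.div_lt_of_lt_mul (lt_of_lt_of_eq q.isLt (mul_comm _ _))
  have cl : ∀ q : ℕ, q % (m + 5) < m + 5 := fun q => Nat.mod_lt _ (by omega)
  let E : Fin (T * (m + 5)) → Prop := fun q => ∃ l : Fin m, cc a (e (q / (m + 5))) l = q % (m + 5)
  let M : Fin (T * (m + 5)) → Fin m := fun q => if h : E q then h.choose else ⟨0, hm⟩
  let s : Fin (T * (m + 5)) → ℕ := fun q => if h : E q then
    (q : ℕ) / (m + 5) * P + ((h.choose : ℕ) * D + a h.choose) else (T + 1 + q) * P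
  have key : ∀ i x, i < m → x < D → i * D + x < P := by
    intro i x h1 h2
    have h3 : (i + 1) * D ≤ m * D := Nat.mul_le_mul_right D h1
    have h4 : (i + 1) * D = i * D + D := by ring
    omega
  have hM : ∀ q (h : E q), M q = h.choose := fun q h => dif_pos h
  have hs1 : ∀ q (h : E q), s q = (q : ℕ) / (m + 5) * P + ((h.choose : ℕ) * D + a h.choose) :=
    fun q h => dif_pos h
  have hs2 : ∀ q (h : ¬ E q), s q = (T + 1 + q) * P := fun q h => dif_neg h
  have hb : ∀ q (h : E q), (h.choose : ℕ) * D + a h.choose < P := fun q h =>
    key _ _ h.choose.isLt (by have := (ha _ h.choose.isLt); omega)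
  refine ⟨M, fun q => (s q : ℝ), ⟨?_, ?_⟩, ?_⟩
  · intro q
    have : rl m D (e (q / (m + 5))) (q / (m + 5)) (q % (m + 5)) ≤ s q := by
      unfold rl
      rw [← hP]
      by_cases h : E q
      · rw [hs1 q h]
        apply Nat.add_le_add_left
        have h2 := (cc_spec hD a _ (ok _ (ql q)) (ha _ h.choose.isLt)).2.1
        rw [h.choose_spec] at h2
        exact h2
      · rw [hs2 q h]
        have h2 := lo_le hD hm (ok _ (ql q)) (cl q)
        have h3 : (q : ℕ) / (m + 5) * P + P = ((q : ℕ) / (m + 5) + 1) * P := by ring
        have h4 : ((q : ℕ) / (m + 5) + 1) * P ≤ (T + 1 + q) * P :=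
          Nat.mul_le_mul_right P (by have := ql q; omega)
        omega
    exact_mod_cast this
  · intro q q' hne hMM
    have main : ∀ q q' : Fin (T * (m + 5)), q ≠ q' → M q = M q' →
        (q : ℕ) < q' ∨ (¬ E q ∧ E q') → s q + P ≤ s q' ∨ s q' + P ≤ s q := by
      intro q q' hne hMM hor
      by_cases h : E q
      · by_cases h' : E q'
        · -- both on time
          have hlt : (q : ℕ) < q' := by
            rcases hor with hor | hor
            · exact hor
            · exact absurd h hor.1
          rw [hM q h, hM q' h'] at hMM
          left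
          rw [hs1 q h, hs1 q' h', ← hMM]
          have hdiv : (q : ℕ) / (m + 5) ≤ q' / (m + 5) := Nat.div_le_div_right hlt.le
          have hne2 : (q : ℕ) / (m + 5) ≠ q' / (m + 5) := by
            intro heq
            apply hne
            apply Fin.ext
            have e1 := h.choose_spec
            have e2 := h'.choose_spec
            rw [← hMM, ← heq] at e2
            rw [← Nat.div_add_mod (q : ℕ) (m + 5), ← Nat.div_add_mod (q' : ℕ) (m + 5), ← heq,
              ← e1, ← e2]
          have h3 : ((q : ℕ) / (m + 5) + 1) * P ≤ (q' : ℕ) / (m + 5) * P :=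
            Nat.mul_le_mul_right P (by omega)
          have h4 : ((q : ℕ) / (m + 5) + 1) * P = (q : ℕ) / (m + 5) * P + P := by ring
          omega
        · left
          rw [hs1 q h, hs2 q' h']
          have h1 := hb q h
          have h3 : ((q : ℕ) / (m + 5) + 2) * P ≤ (T + 1 + q') * P :=
            Nat.mul_le_mul_right P (by have := ql q; omega)
          have h4 : ((q : ℕ) / (m + 5) + 2) * P = (q : ℕ) / (m + 5) * P + P + P := by ring
          omega
      · by_cases h' : E q'
        · right
          rw [hs2 q h, hs1 q' h']
          have h1 := hb q' h'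
          have h3 : ((q' : ℕ) / (m + 5) + 2) * P ≤ (T + 1 + q) * P :=
            Nat.mul_le_mul_right P (by have := ql q'; omega)
          have h4 : ((q' : ℕ) / (m + 5) + 2) * P = (q' : ℕ) / (m + 5) * P + P + P := by ring
          omega
        · left
          have hlt : (q : ℕ) < q' := by
            rcases hor with hor | hor
            · exact hor
            · exact absurd hor.2 h'
          rw [hs2 q h, hs2 q' h']
          have h3 : (T + 1 + q + 1) * P ≤ (T + 1 + q') * P :=
            Nat.mul_le_mul_right P (by omega)
          have h4 : (T + 1 + (q : ℕ) + 1) * P = (T + 1 + q) * P + P := by ring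
          omega
    have : s q + P ≤ s q' ∨ s q' + P ≤ s q := by
      rcases Nat.lt_trichotomy (q : ℕ) q' with h | h | h
      · exact main q q' hne hMM (Or.inl h)
      · exact absurd (Fin.ext h) hne
      · exact (main q' q hne.symm hMM.symm (Or.inl h)).symm
    rcases this with h | h
    · left; exact_mod_cast h
    · right; exact_mod_cast h
  · -- the number of tardy jobs
    have hE : ∀ q, E q → ¬ Tardy P
        (fun q => du m D (e (q / (m + 5))) (q / (m + 5)) (q % (m + 5))) (fun q => (s q : ℝ)) q := by
      intro q h
      unfold Tardy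
      rw [not_lt]
      have h2 := cc_spec hD a _ (ok _ (ql q)) (ha _ h.choose.isLt)
      rw [h.choose_spec] at h2
      have : s q + P ≤ du m D (e (q / (m + 5))) (q / (m + 5)) (q % (m + 5)) := by
        unfold du
        rw [if_pos h2.1, hs1 q h, ← hP]
        omega
      have h3 : ((s q + P : ℕ) : ℝ) ≤
          ((du m D (e (q / (m + 5))) (q / (m + 5)) (q % (m + 5)) : ℕ) : ℝ) := by
        exact_mod_cast this
      push_cast at h3
      exact h3
    have h1 : (univ.filter fun q => Tardy P
        (fun q => du m D (e (q / (m + 5))) (q / (m + 5)) (q % (m + 5))) (fun q => (s q : ℝ)) q) ⊆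
        univ.filter fun q => ¬ E q := by
      intro q hq
      rw [mem_filter] at hq ⊢
      exact ⟨mem_univ _, fun h => hE q h hq.2⟩
    refine le_trans (card_le_card h1) ?_
    have h2 : (univ.filter fun q => ¬ E q).card + (univ.filter fun q => E q).card =
        T * (m + 5) := by
      rw [add_comm, ← Finset.card_union_of_disjoint (Finset.disjoint_filter_filter_not _ _ _),
        Finset.filter_union_filter_not_eq, Finset.card_univ, Fintype.card_fin]
    have h3 : T * m ≤ (univ.filter fun q => E q).card := by
      let ψ : Fin T × Fin m → Fin (T * (m + 5)) := fun x =>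
        ⟨(m + 5) * x.1 + cc a (e x.1) x.2, by
          have h4 := cc_lt a (e x.1) x.2.isLt
          have h5 : (m + 5) * ((x.1 : ℕ) + 1) ≤ (m + 5) * T :=
            Nat.mul_le_mul_left _ x.1.isLt
          have h6 : (m + 5) * ((x.1 : ℕ) + 1) = (m + 5) * x.1 + (m + 5) := by ring
          have h7 : (m + 5) * T = T * (m + 5) := mul_comm _ _
          omega⟩
      have hdm : ∀ x : Fin T × Fin m, ((ψ x : ℕ) / (m + 5) = x.1) ∧
          (ψ x : ℕ) % (m + 5) = cc a (e x.1) x.2 := by
        intro x
        have h4 := cc_lt a (e x.1) x.2.isLt
        simp only [ψ]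
        constructor
        · rw [Nat.mul_add_div (by omega), Nat.div_eq_of_lt h4, add_zero]
        · rw [Nat.mul_add_mod, Nat.mod_eq_of_lt h4]
      have hψ : Function.Injective ψ := by
        intro x y hxy
        have e1 := hdm x
        have e2 := hdm y
        rw [hxy, e2.1] at e1
        have e3 : x.1 = y.1 := Fin.ext e1.1.symm
        refine Prod.ext e3 (Fin.ext ?_)
        have e4 := e1.2
        rw [e2.2, ← e3] at e4
        exact (cc_inj a (e x.1) (ok _ x.1.isLt) (hs _ x.1.isLt) e4).symm
      calc T * m = (univ : Finset (Fin T × Fin m)).card := by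
            rw [Finset.card_univ, Fintype.card_prod, Fintype.card_fin, Fintype.card_fin]
        _ = (univ.map ⟨ψ, hψ⟩).card := (card_map _).symm
        _ ≤ _ := by
            apply card_le_card
            intro q hq
            rw [mem_map] at hq
            obtain ⟨x, -, hx⟩ := hq
            rw [mem_filter]
            refine ⟨mem_univ _, x.2, ?_⟩
            rw [← hx]
            simp only [Function.Embedding.coeFn_mk]
            rw [(hdm x).1, (hdm x).2]
    have h4 : T * (m + 5) = T * m + 5 * T := by ring
    omega

end Pool.Agent.TH704.EqLen
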