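import Pool.Agent.TH704.EqLen.Defs

/-!
# The gadgets

Time is divided into `T` periods of length `p = m * D`.  In a schedule with `m * T` jobs on time
every machine starts exactly one job in every period.  At the beginning and at the end of the
schedule the machine on track `l < m` must start between `l * D + 1` and `l * D + D - 2`; the
position of its starting time in the period never decreases.  A gadget `(i, j, u₁, u₂, v₁, v₂)`
forbids that the position on track `i` is in `[u₁, u₂]` while the one on track `j` is in `[v₁, v₂]`.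
-/

namespace Pool.Agent.TH704.EqLen

open Finset

/-- gadgets `(i, j, u₁, u₂, v₁, v₂)` -/
abbrev Gad := ℕ × ℕ × ℕ × ℕ × ℕ × ℕ

/-- first possible position of the job `c` -/
def lo (D : ℕ) (g : Gad) (c : ℕ) : ℕ :=
  if c = 0 then g.1 * D + g.2.2.1 else
  if c = 1 then g.1 * D else
  if c = 2 then g.1 * D + (g.2.2.2.1 + 1) else
  if c = 3 then g.2.1 * D else
  if c = 4 then g.2.1 * D + (g.2.2.2.2.2 + 1) else (c - 5) * D + 1

/-- last possible position of the job `c` -/
def hi (D : ℕ) (g : Gad) (c : ℕ) : ℕ :=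
  if c = 0 then g.2.1 * D + g.2.2.2.2.2 else
  if c = 1 then g.1 * D + (g.2.2.1 - 1) else
  if c = 2 then g.1 * D + (D - 1) else
  if c = 3 then g.2.1 * D + (g.2.2.2.2.1 - 1) else
  if c = 4 then g.2.1 * D + (D - 1) else (c - 5) * D + (D - 2)

/-- the job `c` is present in a period with descriptor `e` -/
def pres (e : Bool × Gad) (c : ℕ) : Bool :=
  if e.1 = true then decide (c < 5) || (!decide (c - 5 = e.2.1) && !decide (c - 5 = e.2.2.1))
  else decide (5 ≤ c)

/-- release date of job `c` of period `t` -/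
def rl (m D : ℕ) (e : Bool × Gad) (t c : ℕ) : ℕ := t * (m * D) + lo D e.2 c

/-- due date of job `c` of period `t` -/
def du (m D : ℕ) (e : Bool × Gad) (t c : ℕ) : ℕ :=
  if pres e c = true then t * (m * D) + hi D e.2 c + m * D else 0

/-- side conditions on a period descriptor -/
def Okg (m D : ℕ) (e : Bool × Gad) : Prop :=
  if e.1 = true then e.2.1 < e.2.2.1 ∧ e.2.2.1 < m ∧ 1 ≤ e.2.2.2.1 ∧ e.2.2.2.1 ≤ D - 1 ∧
    e.2.2.2.2.1 ≤ D - 2 ∧ 1 ≤ e.2.2.2.2.2.1 ∧ e.2.2.2.2.2.1 ≤ D - 1 ∧ e.2.2.2.2.2.2 ≤ D - 2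
  else e.2 = (0, 0, 0, 0, 0, 0)

/-- the positions `a` satisfy the gadget -/
def Sat (a : ℕ → ℕ) (e : Bool × Gad) : Prop :=
  e.1 = true → ¬ ((e.2.2.2.1 ≤ a e.2.1 ∧ a e.2.1 ≤ e.2.2.2.2.1) ∧
    (e.2.2.2.2.2.1 ≤ a e.2.2.1 ∧ a e.2.2.1 ≤ e.2.2.2.2.2.2))

theorem card_eq_ncard {N : ℕ} (P : Fin N → Prop) [DecidablePred P] :
    (univ.filter P).card = {j | P j}.ncard := by
  rw [← Set.ncard_coe_finset]
  congr 1
  ext j
  simp

theorem mul_D_le {D a b x y : ℕ} (h : a * D + x ≤ b * D + y) (hy : y < D) : a ≤ b := by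
  by_contra hc
  push Not at hc
  have h1 : (b + 1) * D ≤ a * D := Nat.mul_le_mul_right D hc
  have h2 : (b + 1) * D = b * D + D := by ring
  omega

theorem hi_lt {m D : ℕ} (hD : 3 ≤ D) (hm : 0 < m) {e : Bool × Gad} (ok : Okg m D e) {c : ℕ}
    (hc : c < m + 5) : hi D e.2 c < m * D := by
  have key : ∀ i x, i < m → x < D → i * D + x < m * D := by
    intro i x h1 h2
    have h3 : (i + 1) * D ≤ m * D := Nat.mul_le_mul_right D h1
    have h4 : (i + 1) * D = i * D + D := by ring
    omega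
  obtain ⟨b, i, j, u1, u2, v1, v2⟩ := e
  unfold Okg at ok
  unfold hi
  simp only at ok ⊢
  split_ifs at ok ⊢ <;> first
    | (apply key <;> omega)
    | (simp only [Prod.mk.injEq] at ok
       obtain ⟨rfl, rfl, rfl, rfl, rfl, rfl⟩ := ok
       apply key <;> omega)

theorem lo_le {m D : ℕ} (hD : 3 ≤ D) (hm : 0 < m) {e : Bool × Gad} (ok : Okg m D e) {c : ℕ}
    (hc : c < m + 5) : lo D e.2 c < m * D := by
  have key : ∀ i x, i < m → x < D → i * D + x < m * D := by
    intro i x h1 h2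
    have h3 : (i + 1) * D ≤ m * D := Nat.mul_le_mul_right D h1
    have h4 : (i + 1) * D = i * D + D := by ring
    omega
  have key0 : ∀ i, i < m → i * D < m * D := by
    intro i h1
    have := key i 0 h1 (by omega)
    omega
  obtain ⟨b, i, j, u1, u2, v1, v2⟩ := e
  unfold Okg at ok
  unfold lo
  simp only at ok ⊢
  split_ifs at ok ⊢ <;> first
    | (apply key <;> omega)
    | (apply key0; omega)
    | (simp only [Prod.mk.injEq] at ok
       obtain ⟨rfl, rfl, rfl, rfl, rfl, rfl⟩ := ok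
       first
         | (apply key <;> omega)
         | (apply key0; omega))

/-- The job which contains a position of track `i` in a forbidden pair of intervals is the job
`0`. -/
theorem job_zero {m D : ℕ} {g : Gad} (ok : Okg m D (true, g)) {c x a : ℕ}
    (hp : pres (true, g) c = true) (h1 : lo D g c ≤ x) (h2 : x ≤ hi D g c) (hD : 3 ≤ D)
    (h : (x = g.1 * D + a ∧ g.2.2.1 ≤ a ∧ a ≤ g.2.2.2.1) ∨
      (x = g.2.1 * D + a ∧ g.2.2.2.2.1 ≤ a ∧ a ≤ g.2.2.2.2.2)) : c = 0 := by
  obtain ⟨i, j, u1, u2, v1, v2⟩ := g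
  unfold Okg at ok
  unfold pres at hp
  unfold lo at h1
  unfold hi at h2
  simp only [if_true, Bool.or_eq_true, decide_eq_true_eq, Bool.and_eq_true, Bool.not_eq_true',
    decide_eq_false_iff_not] at ok hp h1 h2 h
  obtain ⟨o1, o2, o3, o4, o5, o6, o7, o8⟩ := ok
  have hij : i * D + D ≤ j * D := by
    have h3 : (i + 1) * D ≤ j * D := Nat.mul_le_mul_right D o1
    have h4 : (i + 1) * D = i * D + D := by ring
    omega
  by_contra hc
  rw [if_neg hc] at h1 h2
  by_cases c1 : c = 1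
  · rw [if_pos c1] at h1 h2
    omega
  rw [if_neg c1] at h1 h2
  by_cases c2 : c = 2
  · rw [if_pos c2] at h1 h2
    omega
  rw [if_neg c2] at h1 h2
  by_cases c3 : c = 3
  · rw [if_pos c3] at h1 h2
    omega
  rw [if_neg c3] at h1 h2
  by_cases c4 : c = 4
  · rw [if_pos c4] at h1 h2
    omega
  rw [if_neg c4] at h1 h2
  rcases hp with hp | ⟨hp1, hp2⟩
  · omega
  rcases h with ⟨rfl, h3, h4⟩ | ⟨rfl, h3, h4⟩
  · have e1 : c - 5 ≤ i := mul_D_le (x := 1) (y := a) h1 (by omega)
    have e2 : i ≤ c - 5 := mul_D_le (x := a) (y := D - 2) h2 (by omega)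
    omega
  · have e1 : c - 5 ≤ j := mul_D_le (x := 1) (y := a) h1 (by omega)
    have e2 : j ≤ c - 5 := mul_D_le (x := a) (y := D - 2) h2 (by omega)
    omega

end Pool.Agent.TH704.EqLen
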