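import Mathlib

/-!
# Scheduling equal-length jobs with release dates on identical parallel machines

`P | r_j, p_j = p | ∑ w_j U_j` and `P | r_j, p_j = p | ∑ U_j`: definitions.
-/

namespace Pool.Agent.TH704.EqLen

/-- `n` jobs with release dates `r` and the common processing time `p`, and `m` machines: job `j` is
processed without preemption by the machine `M j` from the time `S j` on; no job starts before its
release date, and jobs on the same machine do not overlap. -/
structure IsSchedule {n m : ℕ} (p : ℕ) (r : Fin n → ℕ) (M : Fin n → Fin m) (S : Fin n → ℝ) :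
    Prop where
  release : ∀ j, (r j : ℝ) ≤ S j
  disjoint : ∀ i j, i ≠ j → M i = M j → S i + p ≤ S j ∨ S j + p ≤ S i

/-- The job `j` is tardy: it is completed after its due date. -/
def Tardy {n : ℕ} (p : ℕ) (d : Fin n → ℕ) (S : Fin n → ℝ) (j : Fin n) : Prop :=
  (d j : ℝ) < S j + p

open Classical in
/-- `∑ w_j U_j`: the total weight of the tardy jobs; a job is a triple `(r_j, d_j, w_j)`. -/
noncomputable def tardyWeight (p : ℕ) (l : List (ℕ × ℕ × ℕ)) (S : Fin l.length → ℝ) : ℕ :=
  ∑ j with Tardy p (fun j => l[j].2.1) S j, l[j].2.2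

/-- The decision version of `P | r_j, p_j = p | ∑ w_j U_j`.  An instance `(((m, p), l), k)` has the
number `m` of machines, the common processing time `p ≥ 1`, the list `l` of the jobs
`(r_j, d_j, w_j)` and a bound `k`: is there a schedule with `∑ w_j U_j ≤ k`?  (Numbers are written
in binary.) -/
def WEqualLength (I : ((ℕ × ℕ) × List (ℕ × ℕ × ℕ)) × ℕ) : Prop :=
  1 ≤ I.1.1.2 ∧ ∃ (M : Fin I.1.2.length → Fin I.1.1.1) (S : Fin I.1.2.length → ℝ),
    IsSchedule I.1.1.2 (fun j => I.1.2[j].1) M S ∧ tardyWeight I.1.1.2 I.1.2 S ≤ I.2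

/-- The decision version of `P | r_j, p_j = p | ∑ U_j`.  An instance `(((m, p), l), k)` has the
number `m` of machines, the common processing time `p ≥ 1`, the list `l` of the jobs `(r_j, d_j)`
and a bound `k`: is there a schedule with at most `k` tardy jobs?  (Numbers are written in
binary.) -/
def EqualLength (I : ((ℕ × ℕ) × List (ℕ × ℕ)) × ℕ) : Prop :=
  1 ≤ I.1.1.2 ∧ ∃ (M : Fin I.1.2.length → Fin I.1.1.1) (S : Fin I.1.2.length → ℝ),
    IsSchedule I.1.1.2 (fun j => I.1.2[j].1) M S ∧
      {j | Tardy I.1.1.2 (fun j => I.1.2[j].2) S j}.ncard ≤ I.2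

/-- The optimisation version: the minimum of `∑ w_j U_j` over all schedules. -/
noncomputable def optW (I : (ℕ × ℕ) × List (ℕ × ℕ × ℕ)) : ℕ :=
  sInf {v | ∃ (M : Fin I.2.length → Fin I.1.1) (S : Fin I.2.length → ℝ),
    IsSchedule I.1.2 (fun j => I.2[j].1) M S ∧ tardyWeight I.1.2 I.2 S = v}

/-- The optimisation version: the minimum of `∑ U_j` over all schedules. -/
noncomputable def optU (I : (ℕ × ℕ) × List (ℕ × ℕ)) : ℕ :=
  sInf {v | ∃ (M : Fin I.2.length → Fin I.1.1) (S : Fin I.2.length → ℝ),
    IsSchedule I.1.2 (fun j => I.2[j].1) M S ∧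
      {j | Tardy I.1.2 (fun j => I.2[j].2) S j}.ncard = v}

end Pool.Agent.TH704.EqLen
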