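import Pool.Agent.TH704.EqLen.Core

/-!
# The gadgets for the clique problem
-/

namespace Pool.Agent.TH704.EqLen

/-- a period without gadget -/
def plainE : Bool × Gad := (false, 0, 0, 0, 0, 0, 0)

/-- gadgets which force `a i + a (k + i) ≥ n + 1` -/
def up (k n : ℕ) : List (Bool × Gad) :=
  (List.range k).flatMap fun i => (List.range (n + 1)).map fun x => (true, i, k + i, 1, x, 1, n - x)

/-- gadgets which exclude pairs which are not adjacent -/
def mid (k n : ℕ) (adj : ℕ → ℕ → Bool) : List (Bool × Gad) :=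
  (List.range k).flatMap fun i => (List.range k).flatMap fun j =>
    (List.range n).flatMap fun u => (List.range n).flatMap fun v =>
      if (decide (i < j) && !adj u v) = true then [(true, i, j, u + 1, u + 1, v + 1, v + 1)] else []

/-- gadgets which force `a i + a (k + i) ≤ n + 1` -/
def down (k n : ℕ) : List (Bool × Gad) :=
  (List.range k).flatMap fun i =>
    (List.range n).map fun x => (true, i, k + i, x + 1, n, n + 1 - x, n)

/-- the descriptors of all periods -/
def descr (k n : ℕ) (adj : ℕ → ℕ → Bool) : List (Bool × Gad) :=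
  plainE :: (up k n ++ (mid k n adj ++ (down k n ++ [plainE])))

theorem mem_up {k n : ℕ} {e : Bool × Gad} : e ∈ up k n ↔
    ∃ i < k, ∃ x < n + 1, (true, i, k + i, 1, x, 1, n - x) = e := by
  unfold up
  simp only [List.mem_flatMap, List.mem_map, List.mem_range]

theorem mem_down {k n : ℕ} {e : Bool × Gad} : e ∈ down k n ↔
    ∃ i < k, ∃ x < n, (true, i, k + i, x + 1, n, n + 1 - x, n) = e := by
  unfold down
  simp only [List.mem_flatMap, List.mem_map, List.mem_range]

theorem mem_mid {k n : ℕ} {adj : ℕ → ℕ → Bool} {e : Bool × Gad} : e ∈ mid k n adj ↔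
    ∃ i < k, ∃ j < k, ∃ u < n, ∃ v < n, i < j ∧ adj u v = false ∧
      e = (true, i, j, u + 1, u + 1, v + 1, v + 1) := by
  unfold mid
  simp only [List.mem_flatMap, List.mem_range]
  constructor
  · rintro ⟨i, hi, j, hj, u, hu, v, hv, h⟩
    split_ifs at h with hc
    · rw [Bool.and_eq_true, decide_eq_true_eq, Bool.not_eq_true'] at hc
      exact ⟨i, hi, j, hj, u, hu, v, hv, hc.1, hc.2, List.mem_singleton.1 h⟩
    · exact absurd h List.not_mem_nil
  · rintro ⟨i, hi, j, hj, u, hu, v, hv, h1, h2, h3⟩
    refine ⟨i, hi, j, hj, u, hu, v, hv, ?_⟩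
    rw [if_pos (by rw [Bool.and_eq_true, decide_eq_true_eq, Bool.not_eq_true']; exact ⟨h1, h2⟩)]
    exact List.mem_singleton.2 h3

theorem okg_descr {k n : ℕ} {adj : ℕ → ℕ → Bool} {e : Bool × Gad} (he : e ∈ descr k n adj) :
    Okg (2 * k) (n + 2) e := by
  unfold descr at he
  rw [List.mem_cons, List.mem_append, List.mem_append, List.mem_append, List.mem_singleton] at he
  have hpl : Okg (2 * k) (n + 2) plainE := by unfold Okg plainE; simp
  rcases he with rfl | he | he | he | rfl
  · exact hpl
  · rw [mem_up] at he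
    obtain ⟨i, hi, x, hx, rfl⟩ := he
    unfold Okg
    simp only [if_true]
    omega
  · rw [mem_mid] at he
    obtain ⟨i, hi, j, hj, u, hu, v, hv, h1, h2, rfl⟩ := he
    unfold Okg
    simp only [if_true]
    omega
  · rw [mem_down] at he
    obtain ⟨i, hi, x, hx, rfl⟩ := he
    unfold Okg
    simp only [if_true]
    omega
  · exact hpl

/-- Positions for a clique. -/
theorem sat_descr {k n : ℕ} {adj : ℕ → ℕ → Bool} (c : ℕ → ℕ) (hc : ∀ i < k, c i < n)
    (hadj : ∀ i < k, ∀ j < k, i ≠ j → adj (c i) (c j) = true) :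
    ∃ a : ℕ → ℕ, (∀ l < 2 * k, 1 ≤ a l ∧ a l ≤ n) ∧ ∀ e ∈ descr k n adj, Sat a e := by
  refine ⟨fun l => if l < k then c l + 1 else n - c (l - k), ?_, ?_⟩
  · intro l hl
    simp only
    split_ifs with h
    · have := hc l h
      omega
    · have := hc (l - k) (by omega)
      omega
  · intro e he
    unfold descr at he
    rw [List.mem_cons, List.mem_append, List.mem_append, List.mem_append, List.mem_singleton] at he
    have hpl : ∀ a, Sat a plainE := by
      intro a h
      exact absurd h (by simp [plainE])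
    rcases he with rfl | he | he | he | rfl
    · exact hpl _
    · rw [mem_up] at he
      obtain ⟨i, hi, x, hx, rfl⟩ := he
      rintro - ⟨⟨h1, h2⟩, h3, h4⟩
      simp only at h1 h2 h3 h4
      rw [if_pos hi] at h1 h2
      rw [if_neg (by omega), Nat.add_sub_cancel_left] at h3 h4
      have := hc i hi
      omega
    · rw [mem_mid] at he
      obtain ⟨i, hi, j, hj, u, hu, v, hv, h1, h2, rfl⟩ := he
      rintro - ⟨⟨h3, h4⟩, h5, h6⟩
      simp only at h3 h4 h5 h6
      rw [if_pos hi] at h3 h4
      rw [if_pos hj] at h5 h6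
      have h7 := hadj i hi j hj (by omega)
      have e1 : c i = u := by omega
      have e2 : c j = v := by omega
      rw [e1, e2, h2] at h7
      exact absurd h7 (by simp)
    · rw [mem_down] at he
      obtain ⟨i, hi, x, hx, rfl⟩ := he
      rintro - ⟨⟨h1, h2⟩, h3, h4⟩
      simp only at h1 h2 h3 h4
      rw [if_pos hi] at h1 h2
      rw [if_neg (by omega), Nat.add_sub_cancel_left] at h3 h4
      have := hc i hi
      omega
    · exact hpl _

theorem getD_mid {α : Type} (A B C : List α) (d x : α) (hx : x ∈ B) :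
    ∃ t, A.length ≤ t ∧ t < A.length + B.length ∧ (A ++ (B ++ C)).getD t d = x := by
  obtain ⟨i, hi, hix⟩ := List.mem_iff_getElem.1 hx
  refine ⟨A.length + i, by omega, by omega, ?_⟩
  rw [List.getD_append_right _ _ _ _ (by omega), Nat.add_sub_cancel_left,
    List.getD_append _ _ _ _ hi, List.getD_eq_getElem _ _ hi, hix]

/-- A clique from positions which do not decrease. -/
theorem clique_of_tracks {k n : ℕ} {adj : ℕ → ℕ → Bool} (a : ℕ → ℕ → ℕ)
    (ha : ∀ l < 2 * k, ∀ t < (descr k n adj).length, 1 ≤ a l t ∧ a l t ≤ n)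
    (hmono : ∀ l < 2 * k, ∀ t t', t ≤ t' → t' < (descr k n adj).length → a l t ≤ a l t')
    (hs : ∀ t < (descr k n adj).length, Sat (fun l => a l t) ((descr k n adj).getD t plainE)) :
    ∃ c : ℕ → ℕ, (∀ i < k, c i < n) ∧ ∀ i < k, ∀ j < k, i < j → adj (c i) (c j) = true := by
  set T := (descr k n adj).length with hT
  have hlen : T = 1 + (up k n).length + (mid k n adj).length + (down k n).length + 1 := by
    rw [hT]
    unfold descr
    simp only [List.length_cons, List.length_append, List.length_nil]
    omega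
  set tu := 1 + (up k n).length with htu
  set td := tu + (mid k n adj).length with htd
  have g1 : ∀ e ∈ up k n, ∃ t < tu, (descr k n adj).getD t plainE = e := by
    intro e he
    obtain ⟨t, h1, h2, h3⟩ := getD_mid [plainE] (up k n) (mid k n adj ++ (down k n ++ [plainE]))
      plainE e he
    simp only [List.length_cons, List.length_nil] at h1 h2
    refine ⟨t, by omega, ?_⟩
    rw [← h3]
    rfl
  have g2 : ∀ e ∈ mid k n adj, ∃ t, tu ≤ t ∧ t < td ∧ (descr k n adj).getD t plainE = e := by
    intro e he
    obtain ⟨t, h1, h2, h3⟩ := getD_mid (plainE :: up k n) (mid k n adj) (down k n ++ [plainE])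
      plainE e he
    simp only [List.length_cons] at h1 h2
    refine ⟨t, by omega, by omega, ?_⟩
    rw [← h3]
    unfold descr
    rw [List.cons_append]
  have g3 : ∀ e ∈ down k n, ∃ t, td ≤ t ∧ t < T ∧ (descr k n adj).getD t plainE = e := by
    intro e he
    obtain ⟨t, h1, h2, h3⟩ := getD_mid (plainE :: (up k n ++ mid k n adj)) (down k n) [plainE]
      plainE e he
    simp only [List.length_cons, List.length_append] at h1 h2
    refine ⟨t, by omega, by omega, ?_⟩
    rw [← h3]
    unfold descr
    rw [List.cons_append, List.append_assoc]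
  have htuT : tu < T := by omega
  have htdT : td < T := by omega
  have A1 : ∀ i < k, n + 1 ≤ a i tu + a (k + i) tu := by
    intro i hi
    by_contra hcon
    obtain ⟨b1, b2⟩ := ha i (by omega) tu htuT
    obtain ⟨b3, b4⟩ := ha (k + i) (by omega) tu htuT
    obtain ⟨t, ht, hte⟩ := g1 (true, i, k + i, 1, a i tu, 1, n - a i tu)
      (mem_up.2 ⟨i, hi, a i tu, by omega, rfl⟩)
    have h1 := hs t (by omega)
    rw [hte] at h1
    apply h1 rfl
    have m1 := hmono i (by omega) t tu ht.le htuT
    have m2 := hmono (k + i) (by omega) t tu ht.le htuT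
    obtain ⟨c1, c2⟩ := ha i (by omega) t (by omega)
    obtain ⟨c3, c4⟩ := ha (k + i) (by omega) t (by omega)
    simp only
    omega
  have A2 : ∀ i < k, a i td + a (k + i) td ≤ n + 1 := by
    intro i hi
    by_contra hcon
    obtain ⟨b1, b2⟩ := ha i (by omega) td htdT
    obtain ⟨b3, b4⟩ := ha (k + i) (by omega) td htdT
    obtain ⟨t, ht, htT, hte⟩ := g3 (true, i, k + i, a i td - 1 + 1, n, n + 1 - (a i td - 1), n)
      (mem_down.2 ⟨i, hi, a i td - 1, by omega, rfl⟩)
    have h1 := hs t htT
    rw [hte] at h1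
    apply h1 rfl
    have m1 := hmono i (by omega) td t ht htT
    have m2 := hmono (k + i) (by omega) td t ht htT
    obtain ⟨c1, c2⟩ := ha i (by omega) t (by omega)
    obtain ⟨c3, c4⟩ := ha (k + i) (by omega) t (by omega)
    simp only
    omega
  have hconst : ∀ i < k, ∀ t, tu ≤ t → t < td → a i t = a i tu := by
    intro i hi t h1 h2
    have b1 := A1 i hi
    have b2 := A2 i hi
    have m1 := hmono i (by omega) tu t h1 (by omega)
    have m2 := hmono i (by omega) t td h2.le htdT
    have m3 := hmono (k + i) (by omega) tu td (by omega) htdT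
    omega
  refine ⟨fun i => a i tu - 1, ?_, ?_⟩
  · intro i hi
    obtain ⟨b1, b2⟩ := ha i (by omega) tu htuT
    simp only
    omega
  · intro i hi j hj hij
    obtain ⟨b1, b2⟩ := ha i (by omega) tu htuT
    obtain ⟨b3, b4⟩ := ha j (by omega) tu htuT
    by_contra hcon
    rw [Bool.not_eq_true] at hcon
    obtain ⟨t, h1, h2, h3⟩ := g2 (true, i, j, a i tu - 1 + 1, a i tu - 1 + 1, a j tu - 1 + 1,
      a j tu - 1 + 1) (mem_mid.2 ⟨i, hi, j, hj, a i tu - 1, by omega, a j tu - 1, by omega, hij,
        hcon, rfl⟩)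
    have h4 := hs t (by omega)
    rw [h3] at h4
    apply h4 rfl
    simp only
    rw [hconst i hi t h1 h2, hconst j hj t h1 h2]
    omega

end Pool.Agent.TH704.EqLen
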