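import Pool.Agent.TH704.EqLen.Main

/-!
# Scheduling equal-length jobs: conclusions
-/

namespace Pool.Agent.TH704.EqLen

open Finset Pool.Agent.NPC Pool.Agent.H633R2

theorem redW_iff (x : Inp) : HasClique x ↔ WEqualLength (redW x) := by
  rw [redU_iff]
  have h1 : jobsW x = (jobs x).map fun j => (j.1, j.2, 1) := by
    unfold jobsW jobs
    rw [List.map_map]
    rfl
  unfold redU redW
  split_ifs with h0 h2
  · rw [← wEqualLength_iff]
    rfl
  · rw [h1, wEqualLength_iff]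
  · rw [← wEqualLength_iff]
    rfl

theorem redU_param (x : Inp) : machinesU (redU x) ≤ 2 * x.2 + 1 := by
  unfold redU machinesU
  have h : gk x ≤ x.2 := min_le_left _ _
  split_ifs
  · simp
  · simp only
    omega
  · simp

theorem redW_param (x : Inp) : machinesW (redW x) ≤ 2 * x.2 + 1 := by
  unfold redW machinesW
  have h : gk x ≤ x.2 := min_le_left _ _
  split_ifs
  · simp
  · simp only
    omega
  · simp

theorem computable_bound : Computable fun k : ℕ => 2 * k + 1 :=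
  add_computable (mul_computable (Computable.const 2) Computable.id) (Computable.const 1)

/-- `P | r_j, p_j = p | ∑ U_j` is `W[1]`-hard in the number of machines. -/
theorem w1HardU : W1Hard machinesU EqualLength :=
  W1Hard.of_clique ⟨redU, fun k => 2 * k + 1, FptTime.of_poly redU_poly, computable_bound,
    fun a => ⟨redU_iff a, redU_param a⟩⟩

/-- `P | r_j, p_j = p | ∑ w_j U_j` is `W[1]`-hard in the number of machines. -/
theorem w1HardW : W1Hard machinesW WEqualLength :=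
  W1Hard.of_clique ⟨redW, fun k => 2 * k + 1, FptTime.of_poly redW_poly, computable_bound,
    fun a => ⟨redW_iff a, redW_param a⟩⟩

/-- The reduction from Clique: polynomial time, at most `2 k + 1` machines. -/
theorem reduction : ∃ f : List (List Bool) × ℕ → ((ℕ × ℕ) × List (ℕ × ℕ)) × ℕ, Poly f ∧
    ∀ x, (HasClique x ↔ EqualLength (f x)) ∧ (f x).1.1.1 ≤ 2 * x.2 + 1 :=
  ⟨redU, redU_poly, fun x => ⟨redU_iff x, redU_param x⟩⟩

/-- There is always a schedule. -/
theorem exists_schedule (n m p : ℕ) (hm : 0 < m) (r : Fin n → ℕ) :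
    ∃ (M : Fin n → Fin m) (S : Fin n → ℝ), IsSchedule p r M S := by
  refine ⟨fun _ => ⟨0, hm⟩, fun j => (((∑ j, r j) + (j : ℕ) * p : ℕ) : ℝ), ?_, ?_⟩
  · intro j
    have h1 : r j ≤ ∑ j, r j := single_le_sum (fun _ _ => Nat.zero_le _) (mem_univ j)
    have : r j ≤ (∑ j, r j) + (j : ℕ) * p := by omega
    exact_mod_cast this
  · intro i j hij _
    have key : ∀ i j : Fin n, (i : ℕ) < j → (((∑ j, r j) + (i : ℕ) * p : ℕ) : ℝ) + p ≤
        (((∑ j, r j) + (j : ℕ) * p : ℕ) : ℝ) := by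
      intro i j h
      have h1 : ((i : ℕ) + 1) * p ≤ (j : ℕ) * p := Nat.mul_le_mul_right p h
      have h2 : ((i : ℕ) + 1) * p = (i : ℕ) * p + p := by ring
      have : (∑ j, r j) + (i : ℕ) * p + p ≤ (∑ j, r j) + (j : ℕ) * p := by omega
      exact_mod_cast this
    rcases Nat.lt_trichotomy (i : ℕ) j with h | h | h
    · exact Or.inl (key i j h)
    · exact absurd (Fin.ext h) hij
    · exact Or.inr (key j i h)

theorem equalLength_iff_opt (I : ((ℕ × ℕ) × List (ℕ × ℕ)) × ℕ) (hm : 1 ≤ I.1.1.1)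
    (hp : 1 ≤ I.1.1.2) : EqualLength I ↔ optU I.1 ≤ I.2 := by
  constructor
  · rintro ⟨-, M, S, hS, hl⟩
    exact le_trans (Nat.sInf_le ⟨M, S, hS, rfl⟩) hl
  · intro h
    obtain ⟨M₀, S₀, hS₀⟩ := exists_schedule I.1.2.length I.1.1.1 I.1.1.2 hm (fun j => I.1.2[j].1)
    have hne : {v | ∃ (M : Fin I.1.2.length → Fin I.1.1.1) (S : Fin I.1.2.length → ℝ),
        IsSchedule I.1.1.2 (fun j => I.1.2[j].1) M S ∧
          {j | Tardy I.1.1.2 (fun j => I.1.2[j].2) S j}.ncard = v}.Nonempty :=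
      ⟨_, M₀, S₀, hS₀, rfl⟩
    obtain ⟨M, S, hS, hv⟩ := Nat.sInf_mem hne
    exact ⟨hp, M, S, hS, by rw [hv]; exact h⟩

theorem wEqualLength_iff_opt (I : ((ℕ × ℕ) × List (ℕ × ℕ × ℕ)) × ℕ) (hm : 1 ≤ I.1.1.1)
    (hp : 1 ≤ I.1.1.2) : WEqualLength I ↔ optW I.1 ≤ I.2 := by
  constructor
  · rintro ⟨-, M, S, hS, hl⟩
    exact le_trans (Nat.sInf_le ⟨M, S, hS, rfl⟩) hl
  · intro h
    obtain ⟨M₀, S₀, hS₀⟩ := exists_schedule I.1.2.length I.1.1.1 I.1.1.2 hm (fun j => I.1.2[j].1)
    have hne : {v | ∃ (M : Fin I.1.2.length → Fin I.1.1.1) (S : Fin I.1.2.length → ℝ),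
        IsSchedule I.1.1.2 (fun j => I.1.2[j].1) M S ∧
          tardyWeight I.1.1.2 I.1.2 S = v}.Nonempty :=
      ⟨_, M₀, S₀, hS₀, rfl⟩
    obtain ⟨M, S, hS, hv⟩ := Nat.sInf_mem hne
    exact ⟨hp, M, S, hS, by rw [hv]; exact h⟩

theorem redU_pos (x : Inp) : 1 ≤ (redU x).1.1.1 ∧ 1 ≤ (redU x).1.1.2 := by
  unfold redU
  have h : gk x = min x.2 x.1.length := rfl
  split_ifs
  · simp
  · simp only
    have h1 : 1 ≤ 2 * gk x := by omega
    exact ⟨h1, Nat.mul_pos h1 (by omega)⟩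
  · simp

theorem redW_pos (x : Inp) : 1 ≤ (redW x).1.1.1 ∧ 1 ≤ (redW x).1.1.2 := by
  unfold redW
  have h : gk x = min x.2 x.1.length := rfl
  split_ifs
  · simp
  · simp only
    have h1 : 1 ≤ 2 * gk x := by omega
    exact ⟨h1, Nat.mul_pos h1 (by omega)⟩
  · simp

/-- If the minimum of `∑ U_j` can be computed in fpt time, then all problems in `W[1]` are
fixed-parameter tractable. -/
theorem optU_collapse (h : FptTime (fun I : (ℕ × ℕ) × List (ℕ × ℕ) => I.1.1) optU) {α : Type}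
    [TEnc α] {κ : α → ℕ} {P : α → Prop} (hP : InW1 κ P) : IsFpt κ P := by
  have hard : W1Hard machinesU (fun I => optU I.1 ≤ I.2) :=
    W1Hard.of_clique ⟨redU, fun k => 2 * k + 1, FptTime.of_poly redU_poly, computable_bound,
      fun a => ⟨(redU_iff a).trans (equalLength_iff_opt _ (redU_pos a).1 (redU_pos a).2),
        redU_param a⟩⟩
  refine hard.collapse ?_ hP
  have h1 : FptTime machinesU (fun I => optU I.1) :=
    h.comp (G := fun n => n) (FptTime.of_poly (f := fun I : ((ℕ × ℕ) × List (ℕ × ℕ)) × ℕ => I.1)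
      (Poly.fst Poly.id)) Computable.id (fun _ => le_rfl)
  have h2 : FptTime machinesU (fun I => (optU I.1, I.2)) :=
    h1.pair (FptTime.of_poly (Poly.snd Poly.id))
  refine ⟨fun I => decide (optU I.1 ≤ I.2), ?_, fun I => decide_eq_true_iff⟩
  exact FptTime.poly_comp (g := fun q : ℕ × ℕ => decide (q.1 ≤ q.2))
    (Poly.decide_le (Poly.fst Poly.id) (Poly.snd Poly.id)) h2

/-- If the minimum of `∑ w_j U_j` can be computed in fpt time, then all problems in `W[1]` are
fixed-parameter tractable. -/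
theorem optW_collapse (h : FptTime (fun I : (ℕ × ℕ) × List (ℕ × ℕ × ℕ) => I.1.1) optW) {α : Type}
    [TEnc α] {κ : α → ℕ} {P : α → Prop} (hP : InW1 κ P) : IsFpt κ P := by
  have hard : W1Hard machinesW (fun I => optW I.1 ≤ I.2) :=
    W1Hard.of_clique ⟨redW, fun k => 2 * k + 1, FptTime.of_poly redW_poly, computable_bound,
      fun a => ⟨(redW_iff a).trans (wEqualLength_iff_opt _ (redW_pos a).1 (redW_pos a).2),
        redW_param a⟩⟩
  refine hard.collapse ?_ hP
  have h1 : FptTime machinesW (fun I => optW I.1) :=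
    h.comp (G := fun n => n) (FptTime.of_poly
      (f := fun I : ((ℕ × ℕ) × List (ℕ × ℕ × ℕ)) × ℕ => I.1)
      (Poly.fst Poly.id)) Computable.id (fun _ => le_rfl)
  have h2 : FptTime machinesW (fun I => (optW I.1, I.2)) :=
    h1.pair (FptTime.of_poly (Poly.snd Poly.id))
  refine ⟨fun I => decide (optW I.1 ≤ I.2), ?_, fun I => decide_eq_true_iff⟩
  exact FptTime.poly_comp (g := fun q : ℕ × ℕ => decide (q.1 ≤ q.2))
    (Poly.decide_le (Poly.fst Poly.id) (Poly.snd Poly.id)) h2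

end Pool.Agent.TH704.EqLen
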