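import Pool.Agent.TH704.EqLen.Core

/-!
# From schedules to positions
-/

namespace Pool.Agent.TH704.EqLen

open Finset

theorem div_lt_T {m T q : ℕ} (hq : q < T * (m + 5)) : q / (m + 5) < T :=
  Nat.div_lt_of_lt_mul (by rw [mul_comm]; exact hq)

/-- Soundness: a schedule with at least `m * T` jobs on time gives positions which satisfy all
gadgets and do not decrease. -/
theorem sound {m D T : ℕ} (hD : 3 ≤ D) (hm : 0 < m) (hT : 2 ≤ T) (e : ℕ → Bool × Gad)
    (ok : ∀ t < T, Okg m D (e t)) (h0 : (e 0).1 = false) (h1 : (e (T - 1)).1 = false)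
    (M : Fin (T * (m + 5)) → Fin m) (S : Fin (T * (m + 5)) → ℝ)
    (hS : IsSchedule (m * D) (fun q => rl m D (e (q / (m + 5))) (q / (m + 5)) (q % (m + 5))) M S)
    (hc : m * T ≤ {q | ¬ Tardy (m * D)
      (fun q => du m D (e (q / (m + 5))) (q / (m + 5)) (q % (m + 5))) S q}.ncard) :
    ∃ a : ℕ → ℕ → ℕ, (∀ l < m, ∀ t < T, 1 ≤ a l t ∧ a l t ≤ D - 2) ∧
      (∀ l < m, ∀ t t', t ≤ t' → t' < T → a l t ≤ a l t') ∧
      ∀ t < T, Sat (fun l => a l t) (e t) := by
  classical
  rw [← card_eq_ncard] at hc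
  set P := m * D with hP
  have hPpos : 0 < P := Nat.mul_pos hm (by omega)
  -- facts on jobs on time
  have fact : ∀ q : Fin (T * (m + 5)), ¬ Tardy P
      (fun q => du m D (e (q / (m + 5))) (q / (m + 5)) (q % (m + 5))) S q →
      pres (e (q / (m + 5))) (q % (m + 5)) = true ∧
      ((q / (m + 5) * P + lo D (e (q / (m + 5))).2 (q % (m + 5)) : ℕ) : ℝ) ≤ S q ∧
      S q ≤ ((q / (m + 5) * P + hi D (e (q / (m + 5))).2 (q % (m + 5)) : ℕ) : ℝ) := by
    intro q hq
    have r1 := hS.release q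
    unfold Tardy at hq
    rw [not_lt] at hq
    unfold rl at r1
    unfold du at hq
    simp only at r1 hq
    split_ifs at hq with hp
    · refine ⟨hp, r1, ?_⟩
      have : ((q / (m + 5) * P + hi D (e (q / (m + 5))).2 (q % (m + 5)) + P : ℕ) : ℝ) =
        ((q / (m + 5) * P + hi D (e (q / (m + 5))).2 (q % (m + 5)) : ℕ) : ℝ) + (P : ℝ) := by
        push_cast; ring
      rw [← hP] at hq
      rw [this] at hq
      linarith
    · exfalso
      have h2 : (0 : ℝ) ≤ S q := le_trans (Nat.cast_nonneg _) r1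
      have h3 : (0 : ℝ) < P := by exact_mod_cast hPpos
      rw [Nat.cast_zero] at hq
      linarith
  have ql : ∀ q : Fin (T * (m + 5)), (q : ℕ) / (m + 5) < T := fun q => div_lt_T q.isLt
  have cl : ∀ q : ℕ, q % (m + 5) < m + 5 := fun q => Nat.mod_lt _ (by omega)
  have inper : ∀ q : Fin (T * (m + 5)), ¬ Tardy P
      (fun q => du m D (e (q / (m + 5))) (q / (m + 5)) (q % (m + 5))) S q →
      ((q / (m + 5) * P : ℕ) : ℝ) ≤ S q ∧ S q < ((q / (m + 5) * P : ℕ) : ℝ) + P := by
    intro q hq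
    obtain ⟨f1, f2, f3⟩ := fact q hq
    have h2 := hi_lt hD hm (ok _ (ql q)) (cl q)
    refine ⟨le_trans (by exact_mod_cast Nat.le_add_right _ _) f2, lt_of_le_of_lt f3 ?_⟩
    exact_mod_cast Nat.add_lt_add_left h2 _
  -- every machine has exactly one job in each period
  let O := univ.filter fun q => ¬ Tardy P
      (fun q => du m D (e (q / (m + 5))) (q / (m + 5)) (q % (m + 5))) S q
  let φ : O → Fin m × Fin T := fun q => (M q.1, ⟨(q.1 : ℕ) / (m + 5), ql q.1⟩)
  have φinj : Function.Injective φ := by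
    rintro ⟨q, hq⟩ ⟨q', hq'⟩ h
    simp only [φ, Prod.mk.injEq, Fin.mk.injEq] at h
    obtain ⟨e1, e2⟩ := h
    rw [mem_filter] at hq hq'
    by_contra hne
    have hne' : q ≠ q' := fun h => hne (Subtype.ext h)
    have a1 := inper q hq.2
    have a2 := inper q' hq'.2
    rw [← e2] at a2
    rcases hS.disjoint q q' hne' e1 with h | h <;> linarith [a1.1, a1.2, a2.1, a2.2]
  have φbij : Function.Bijective φ := by
    rw [Fintype.bijective_iff_injective_and_card]
    refine ⟨φinj, le_antisymm (Fintype.card_le_of_injective φ φinj) ?_⟩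
    rw [Fintype.card_prod, Fintype.card_fin, Fintype.card_fin, Fintype.card_coe]
    exact hc
  have ex : ∀ (μ : Fin m) (t : Fin T), ∃ q : Fin (T * (m + 5)), (¬ Tardy P
      (fun q => du m D (e (q / (m + 5))) (q / (m + 5)) (q % (m + 5))) S q) ∧ M q = μ ∧
      (q : ℕ) / (m + 5) = t := by
    intro μ t
    obtain ⟨⟨q, hq⟩, hqe⟩ := φbij.2 (μ, t)
    rw [mem_filter] at hq
    simp only [φ, Prod.mk.injEq] at hqe
    exact ⟨q, hq.2, hqe.1, congrArg Fin.val hqe.2⟩
  choose J hJ1 hJ2 hJ3 using ex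
  -- positions of the machines
  let c : Fin m → Fin T → ℕ := fun μ t => (J μ t : ℕ) % (m + 5)
  let s : Fin m → Fin T → ℕ := fun μ t => ⌊S (J μ t)⌋₊
  have Jeq : ∀ μ (t : Fin T), (J μ t : ℕ) = (m + 5) * (t : ℕ) + c μ t := by
    intro μ t
    have := Nat.div_add_mod (J μ t : ℕ) (m + 5)
    rw [hJ3] at this
    exact this.symm
  have hpres : ∀ μ (t : Fin T), pres (e (t : ℕ)) (c μ t) = true := by
    intro μ t
    have := (fact _ (hJ1 μ t)).1
    rw [hJ3] at this
    exact this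
  have hlo : ∀ μ (t : Fin T), (t : ℕ) * P + lo D (e t).2 (c μ t) ≤ s μ t := by
    intro μ t
    have := (fact _ (hJ1 μ t)).2.1
    rw [hJ3] at this
    exact Nat.le_floor this
  have hhi : ∀ μ (t : Fin T), s μ t ≤ (t : ℕ) * P + hi D (e t).2 (c μ t) := by
    intro μ t
    have := (fact _ (hJ1 μ t)).2.2
    rw [hJ3] at this
    have h2 := Nat.floor_le_floor this
    rwa [Nat.floor_natCast] at h2
  have hcm : ∀ μ t, c μ t < m + 5 := fun μ t => cl _
  have cinj : ∀ t μ μ', c μ t = c μ' t → μ = μ' := by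
    intro t μ μ' h
    have h2 : J μ t = J μ' t := by
      apply Fin.ext
      rw [Jeq, Jeq, h]
    rw [← hJ2 μ t, ← hJ2 μ' t, h2]
  have smono : ∀ μ (t t' : Fin T), (t : ℕ) + 1 = t' → s μ t + P ≤ s μ t' := by
    intro μ t t' htt
    have hne : J μ t ≠ J μ t' := by
      intro h
      have h2 := hJ3 μ t
      rw [h, hJ3] at h2
      omega
    have a1 := inper _ (hJ1 μ t)
    have a2 := inper _ (hJ1 μ t')
    rw [hJ3] at a1 a2
    have hpos : (0 : ℝ) ≤ S (J μ t) := le_trans (Nat.cast_nonneg _) a1.1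
    have h3 : (((t' : ℕ) * P : ℕ) : ℝ) = (((t : ℕ) * P : ℕ) : ℝ) + P := by
      rw [← htt]; push_cast; ring
    rw [h3] at a2
    rcases hS.disjoint _ _ hne (by rw [hJ2, hJ2]) with h | h
    · have h2 := Nat.floor_le_floor h
      rwa [Nat.floor_add_natCast hpos] at h2
    · have hP' : (0 : ℝ) < P := by exact_mod_cast hPpos
      linarith [a1.1, a1.2, a2.1, a2.2]
  let x : Fin m → Fin T → ℕ := fun μ t => s μ t - (t : ℕ) * P
  have xlo : ∀ μ (t : Fin T), lo D (e t).2 (c μ t) ≤ x μ t := by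
    intro μ t
    have := hlo μ t
    simp only [x]
    omega
  have xhi : ∀ μ (t : Fin T), x μ t ≤ hi D (e t).2 (c μ t) := by
    intro μ t
    have := hhi μ t
    simp only [x]
    omega
  have xmono1 : ∀ μ (t t' : Fin T), (t : ℕ) + 1 = t' → x μ t ≤ x μ t' := by
    intro μ t t' htt
    have h1 := smono μ t t' htt
    have h2 := hlo μ t
    have h3 : (t' : ℕ) * P = (t : ℕ) * P + P := by rw [← htt]; ring
    simp only [x]
    omega
  have xmono : ∀ μ (d : ℕ) (t t' : Fin T), (t : ℕ) + d = t' → x μ t ≤ x μ t' := by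
    intro μ d
    induction d with
    | zero =>
      intro t t' h
      have : t = t' := Fin.ext (by omega)
      rw [this]
    | succ d ih =>
      intro t t' h
      have ht' := t'.isLt
      refine le_trans (ih t ⟨t + d, by omega⟩ rfl) (xmono1 μ _ _ ?_)
      simp only
      omega
  -- first and last period
  have hplain : ∀ t : Fin T, (e t).1 = false → ∀ μ, 5 ≤ c μ t := by
    intro t ht μ
    have := hpres μ t
    unfold pres at this
    rw [ht] at this
    simpa using this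
  have hplo : ∀ t : Fin T, (e t).1 = false → ∀ μ, (c μ t - 5) * D + 1 ≤ x μ t := by
    intro t ht μ
    have h5 := hplain t ht μ
    have h6 := xlo μ t
    unfold lo at h6
    rw [if_neg (by omega), if_neg (by omega), if_neg (by omega), if_neg (by omega),
      if_neg (by omega)] at h6
    exact h6
  have hphi : ∀ t : Fin T, (e t).1 = false → ∀ μ, x μ t ≤ (c μ t - 5) * D + (D - 2) := by
    intro t ht μ
    have h5 := hplain t ht μ
    have h6 := xhi μ t
    unfold hi at h6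
    rw [if_neg (by omega), if_neg (by omega), if_neg (by omega), if_neg (by omega),
      if_neg (by omega)] at h6
    exact h6
  let t0 : Fin T := ⟨0, by omega⟩
  let t1 : Fin T := ⟨T - 1, by omega⟩
  let σ : Fin m → Fin m := fun μ => ⟨c μ t0 - 5, by have := hcm μ t0; omega⟩
  let τ : Fin m → Fin m := fun μ => ⟨c μ t1 - 5, by have := hcm μ t1; omega⟩
  have σinj : Function.Injective σ := by
    intro μ μ' h
    have h2 := congrArg Fin.val h
    simp only [σ] at h2
    have h3 := hplain t0 h0 μ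
    have h4 := hplain t0 h0 μ'
    exact cinj t0 μ μ' (by omega)
  have τinj : Function.Injective τ := by
    intro μ μ' h
    have h2 := congrArg Fin.val h
    simp only [τ] at h2
    have h3 := hplain t1 h1 μ
    have h4 := hplain t1 h1 μ'
    exact cinj t1 μ μ' (by omega)
  have σbij : Function.Bijective σ := Finite.injective_iff_bijective.1 σinj
  have τbij : Function.Bijective τ := Finite.injective_iff_bijective.1 τinj
  have hle : ∀ μ, (σ μ : ℕ) ≤ (τ μ : ℕ) := by
    intro μ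
    have h2 := hplo t0 h0 μ
    have h3 := hphi t1 h1 μ
    have h4 := xmono μ (T - 1) t0 t1 (by simp [t0, t1])
    exact mul_D_le (D := D) (x := 1) (y := D - 2) (h2.trans (h4.trans h3)) (by omega)
  have hστ : ∀ μ, (σ μ : ℕ) = (τ μ : ℕ) := by
    have h2 : ∑ μ, (σ μ : ℕ) = ∑ μ, (τ μ : ℕ) := by
      rw [σbij.sum_comp (fun i : Fin m => (i : ℕ)), τbij.sum_comp (fun i : Fin m => (i : ℕ))]
    have h3 := (Finset.sum_eq_sum_iff_of_le (fun μ _ => hle μ)).1 h2
    exact fun μ => h3 μ (mem_univ μ)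
  -- the tracks
  have hx : ∀ μ t, (σ μ : ℕ) * D + 1 ≤ x μ t ∧ x μ t ≤ (σ μ : ℕ) * D + (D - 2) := by
    intro μ t
    constructor
    · exact le_trans (hplo t0 h0 μ) (xmono μ t t0 t (by simp [t0]))
    · rw [hστ]
      exact le_trans (xmono μ (T - 1 - t) t t1 (by simp only [t1]; omega)) (hphi t1 h1 μ)
  obtain ⟨ρ, hρ1, hρ2⟩ := Function.bijective_iff_has_inverse.1 σbij
  let a : ℕ → ℕ → ℕ := fun l t => if h : l < m ∧ t < T then
    x (ρ ⟨l, h.1⟩) ⟨t, h.2⟩ - l * D else 0
  have ha : ∀ l (hl : l < m) t (ht : t < T), a l t = x (ρ ⟨l, hl⟩) ⟨t, ht⟩ - l * D := by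
    intro l hl t ht
    simp only [a]
    rw [dif_pos ⟨hl, ht⟩]
  have hσρ : ∀ l (hl : l < m), (σ (ρ ⟨l, hl⟩) : ℕ) = l := by
    intro l hl
    rw [hρ2]
  have hxa : ∀ l (hl : l < m) t (ht : t < T), x (ρ ⟨l, hl⟩) ⟨t, ht⟩ = l * D + a l t := by
    intro l hl t ht
    have h2 := (hx (ρ ⟨l, hl⟩) ⟨t, ht⟩).1
    rw [hσρ] at h2
    rw [ha l hl t ht]
    omega
  refine ⟨a, ?_, ?_, ?_⟩
  · intro l hl t ht
    have h2 := hx (ρ ⟨l, hl⟩) ⟨t, ht⟩
    rw [hσρ, hxa] at h2
    omega
  · intro l hl t t' htt ht'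
    have h2 := xmono (ρ ⟨l, hl⟩) (t' - t) ⟨t, by omega⟩ ⟨t', ht'⟩ (by simp only; omega)
    rw [hxa, hxa] at h2
    omega
  · intro t ht he hcon
    have okt := ok t ht
    have hee : e t = (true, (e t).2) := by rw [← he]
    rw [hee] at okt
    have hij := okt
    unfold Okg at hij
    simp only [if_true] at hij
    obtain ⟨o1, o2, -⟩ := hij
    have hi' : (e t).2.1 < m := lt_trans o1 o2
    have z1 : c (ρ ⟨(e t).2.1, hi'⟩) ⟨t, ht⟩ = 0 := by
      refine job_zero okt ?_ (xlo _ ⟨t, ht⟩) (xhi _ ⟨t, ht⟩) hD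
        (a := a (e t).2.1 t) (Or.inl ⟨hxa _ hi' t ht, hcon.1.1, hcon.1.2⟩)
      rw [← hee]
      exact hpres _ ⟨t, ht⟩
    have z2 : c (ρ ⟨(e t).2.2.1, o2⟩) ⟨t, ht⟩ = 0 := by
      refine job_zero okt ?_ (xlo _ ⟨t, ht⟩) (xhi _ ⟨t, ht⟩) hD
        (a := a (e t).2.2.1 t) (Or.inr ⟨hxa _ o2 t ht, hcon.2.1, hcon.2.2⟩)
      rw [← hee]
      exact hpres _ ⟨t, ht⟩
    have h3 := cinj ⟨t, ht⟩ _ _ (z1.trans z2.symm)
    have h4 := congrArg σ h3
    rw [hρ2, hρ2] at h4
    have h5 := congrArg Fin.val h4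
    simp only at h5
    omega

end Pool.Agent.TH704.EqLen
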