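import Pool.Agent.TH704.EqLen.Red
import Pool.Agent.TH704.EqLen.Sound
import Pool.Agent.TH704.EqLen.Complete
import Pool.Agent.H257R2.OS.G1

/-!
# Scheduling equal-length jobs is `W[1]`-hard in the number of machines
-/

namespace Pool.Agent.TH704.EqLen

open Finset Pool.Agent.NPC Pool.Agent.H633R2

/-- the parameter: the number of machines -/
def machinesU (I : ((ℕ × ℕ) × List (ℕ × ℕ)) × ℕ) : ℕ := I.1.1.1

/-- the parameter: the number of machines -/
def machinesW (I : ((ℕ × ℕ) × List (ℕ × ℕ × ℕ)) × ℕ) : ℕ := I.1.1.1

theorem equalLength_iff {m p k N : ℕ} {l : List (ℕ × ℕ)} (hN : l.length = N) (r d : ℕ → ℕ)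
    (h : ∀ q (hq : q < l.length), l[q] = (r q, d q)) :
    EqualLength (((m, p), l), k) ↔ 1 ≤ p ∧ ∃ (M : Fin N → Fin m) (S : Fin N → ℝ),
      IsSchedule p (fun q => r q) M S ∧ {j | Tardy p (fun q => d q) S j}.ncard ≤ k := by
  subst hN
  have h1 : (fun j : Fin l.length => l[j].1) = fun q : Fin l.length => r q := by
    funext j
    change (l[(j : ℕ)]).1 = _
    rw [h j j.isLt]
  have h2 : (fun j : Fin l.length => l[j].2) = fun q : Fin l.length => d q := by
    funext j
    change (l[(j : ℕ)]).2 = _
    rw [h j j.isLt]
  unfold EqualLength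
  simp only
  rw [h1, h2]

theorem wEqualLength_iff {m p k : ℕ} (l : List (ℕ × ℕ)) :
    WEqualLength (((m, p), l.map fun j => (j.1, j.2, 1)), k) ↔ EqualLength (((m, p), l), k) := by
  classical
  have hlen : (l.map fun j => (j.1, j.2, 1)).length = l.length := List.length_map _
  have main : ∀ (N : ℕ) (lw : List (ℕ × ℕ × ℕ)) (hN : lw.length = N) (r d : ℕ → ℕ)
      (_ : ∀ q (hq : q < lw.length), lw[q] = (r q, d q, 1)),
      WEqualLength (((m, p), lw), k) ↔ 1 ≤ p ∧ ∃ (M : Fin N → Fin m) (S : Fin N → ℝ),
        IsSchedule p (fun q => r q) M S ∧ {j | Tardy p (fun q => d q) S j}.ncard ≤ k := by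
    intro N lw hN r d h
    subst hN
    have h1 : (fun j : Fin lw.length => lw[j].1) = fun q : Fin lw.length => r q := by
      funext j
      change (lw[(j : ℕ)]).1 = _
      rw [h j j.isLt]
    have h2 : (fun j : Fin lw.length => lw[j].2.1) = fun q : Fin lw.length => d q := by
      funext j
      change (lw[(j : ℕ)]).2.1 = _
      rw [h j j.isLt]
    have h3 : ∀ j : Fin lw.length, lw[j].2.2 = 1 := by
      intro j
      change (lw[(j : ℕ)]).2.2 = _
      rw [h j j.isLt]
    unfold WEqualLength tardyWeight
    simp only
    rw [h1, h2]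
    have h4 : ∀ S : Fin lw.length → ℝ, (∑ j with Tardy p (fun q => d q) S j, lw[j].2.2) =
        {j | Tardy p (fun q => d q) S j}.ncard := by
      intro S
      rw [Finset.sum_congr rfl fun j _ => h3 j, Finset.sum_const, smul_eq_mul, mul_one,
        card_eq_ncard]
    simp only [h4]
  rw [main l.length (l.map fun j => (j.1, j.2, 1)) hlen (fun q => (l.getD q (0, 0)).1)
      (fun q => (l.getD q (0, 0)).2), equalLength_iff rfl (fun q => (l.getD q (0, 0)).1)
      (fun q => (l.getD q (0, 0)).2)]
  · intro q hq
    rw [List.getD_eq_getElem _ _ hq]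
  · intro q hq
    rw [List.length_map] at hq
    rw [List.getElem_map, List.getD_eq_getElem _ _ hq]

theorem lD_pos (x : Inp) : 2 ≤ (lD x).length := by
  unfold lD
  simp only [List.length_cons, List.length_append, List.length_nil]
  omega

theorem getD_last (x : Inp) : (lD x).getD ((lD x).length - 1) plainE = plainE := by
  have h1 : lD x = (plainE :: (lup x ++ (lmid x ++ ldown x))) ++ [plainE] := by
    unfold lD
    simp [List.append_assoc]
  rw [h1, List.length_append, List.length_singleton, Nat.add_sub_cancel,
    List.getD_append_right _ _ _ _ le_rfl, Nat.sub_self]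
  rfl

/-- **Correctness of the reduction.** -/
theorem redU_iff (x : Inp) : HasClique x ↔ EqualLength (redU x) := by
  classical
  unfold redU
  split_ifs with h0 h1
  · -- the trivial instance with a solution
    refine ⟨fun _ => ⟨le_rfl, fun j => ⟨0, by norm_num⟩, fun _ => 0,
      ⟨fun j => absurd j.isLt (by simp), fun i => absurd i.isLt (by simp)⟩, ?_⟩, fun _ => ?_⟩
    · refine le_of_eq ?_
      rw [Set.ncard_eq_zero]
      ext j
      exact absurd j.isLt (by simp)
    · refine ⟨∅, ?_⟩
      rw [SimpleGraph.isNClique_iff]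
      simp [h0]
  · -- the reduction
    have hkk : gk x = x.2 := min_eq_left h1
    have hk : 1 ≤ gk x := by omega
    have hn : gk x ≤ gn x := min_le_right _ _
    set m := 2 * gk x with hm
    set D := gn x + 2 with hD
    have hD2 : D - 2 = gn x := by omega
    set T := (lD x).length with hT
    have hT2 : 2 ≤ T := lD_pos x
    set e : ℕ → Bool × Gad := fun t => (lD x).getD t plainE with he
    have hlen : (jobs x).length = T * (m + 5) := by
      unfold jobs
      rw [List.length_map, List.length_range]
    have hmem : ∀ t < T, e t ∈ descr (gk x) (gn x) (adjM x) := by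
      intro t ht
      rw [he]
      simp only
      rw [List.getD_eq_getElem _ _ ht, ← lD_eq]
      exact List.getElem_mem ht
    have hok : ∀ t < T, Okg m D (e t) := fun t ht => okg_descr (hmem t ht)
    rw [equalLength_iff hlen (fun q => rl m D (e (q / (m + 5))) (q / (m + 5)) (q % (m + 5)))
      (fun q => du m D (e (q / (m + 5))) (q / (m + 5)) (q % (m + 5)))
      (by
        intro q hq
        simp only [jobs, List.getElem_map, List.getElem_range]
        rfl), Pool.Agent.H257R2.OS.clique_iff]
    constructor
    · rintro ⟨c, hc1, hc2⟩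
      obtain ⟨a, ha1, ha2⟩ := sat_descr (adj := adjM x) c
        (fun i hi => hc1 i (by rw [← hkk]; exact hi))
        (fun i hi j hj hij => hc2 i (by rw [← hkk]; exact hi) j (by rw [← hkk]; exact hj) hij)
      obtain ⟨M, S, hS, hcard⟩ := complete (m := m) (D := D) (T := T) (by omega) (by omega) e hok a
        (fun l hl => by
          have := ha1 l hl
          rw [hD2]
          exact this) (fun t ht => ha2 _ (hmem t ht))
      exact ⟨Nat.mul_pos (by omega) (by omega), M, S, hS, hcard⟩
    · rintro ⟨-, M, S, hS, hcard⟩
      have hcount : m * T ≤ {q | ¬ Tardy (m * D)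
          (fun q => du m D (e (q / (m + 5))) (q / (m + 5)) (q % (m + 5))) S q}.ncard := by
        have h2 := Set.ncard_add_ncard_compl {q | Tardy (m * D)
            (fun q => du m D (e (q / (m + 5))) (q / (m + 5)) (q % (m + 5))) S q}
        rw [Nat.card_fin] at h2
        have h3 : T * (m + 5) = m * T + 5 * T := by ring
        have h4 : {q | Tardy (m * D)
            (fun q => du m D (e (q / (m + 5))) (q / (m + 5)) (q % (m + 5))) S q}ᶜ =
            {q | ¬ Tardy (m * D)
            (fun q => du m D (e (q / (m + 5))) (q / (m + 5)) (q % (m + 5))) S q} := rfl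
        rw [h4] at h2
        omega
      obtain ⟨a, ha1, ha2, ha3⟩ := sound (m := m) (D := D) (T := T) (by omega) (by omega) hT2 e hok
        rfl (by
          rw [he]
          simp only
          rw [getD_last]
          rfl) M S hS hcount
      obtain ⟨c, hc1, hc2⟩ := clique_of_tracks (k := gk x) (n := gn x) (adj := adjM x) a
        (fun l hl t ht => by
          have := ha1 l hl t ht
          rw [hD2] at this
          exact this) ha2 ha3
      refine ⟨c, fun i hi => hc1 i (by rw [hkk]; exact hi), ?_⟩
      intro i hi j hj hij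
      rcases Nat.lt_or_gt_of_ne hij with h | h
      · exact hc2 i (by rw [hkk]; exact hi) j (by rw [hkk]; exact hj) h
      · have h4 := hc2 j (by rw [hkk]; exact hj) i (by rw [hkk]; exact hi) h
        unfold adjM at h4
        unfold Pool.Agent.H257R2.OS.adjM
        rw [Bool.and_eq_true, Bool.or_eq_true, decide_eq_true_eq] at h4 ⊢
        exact ⟨h4.1.symm, h4.2.symm⟩
  · -- more vertices wanted than there are
    refine ⟨fun h => ?_, fun h => ?_⟩
    · obtain ⟨s, hs⟩ := h
      rw [SimpleGraph.isNClique_iff] at hs
      have h2 := Finset.card_le_univ s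
      rw [Fintype.card_fin] at h2
      omega
    · exfalso
      obtain ⟨-, M, S, hS, hc⟩ := h
      simp only [Nat.le_zero] at hc
      rw [Set.ncard_eq_zero] at hc
      have h2 : (⟨0, by simp⟩ : Fin [((0 : ℕ), (0 : ℕ))].length) ∈
          {j | Tardy 1 (fun j => [((0 : ℕ), (0 : ℕ))][j].2) S j} := by
        have h3 := hS.release ⟨0, by simp⟩
        simp only [Fin.getElem_fin, List.getElem_cons_zero, Nat.cast_zero] at h3
        simp only [Tardy, Set.mem_ofPred_eq, Fin.getElem_fin, List.getElem_cons_zero,
          Nat.cast_zero, Nat.cast_one]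
        linarith
      rw [hc] at h2
      exact h2

end Pool.Agent.TH704.EqLen
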