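import Pool.Agent.TH704.EqLen.Descr
import Pool.Agent.H257R2.LJW.Clique
import Pool.Agent.H671R2.PolyAuto

/-!
# The reduction is computable in polynomial time
-/

namespace Pool.Agent.TH704.EqLen

open Pool.Agent.NPC Pool.Agent.H633R2

/-- inputs -/
abbrev Inp := List (List Bool) × ℕ

def gn (x : Inp) : ℕ := x.1.length
def gk (x : Inp) : ℕ := min x.2 x.1.length

theorem u_gn : UPoly gn := UPoly.length (Poly.fst Poly.id)
theorem u_gk : UPoly gk := UPoly.of_le (n := gn) (by unfold gk; fun_prop) u_gn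
  (fun a => min_le_right _ _)

variable {α : Type} [TEnc α]

theorem p_gn {f : α → Inp} (hf : Poly f) : Poly (fun a => gn (f a)) := u_gn.toPoly.comp hf
theorem p_gk {f : α → Inp} (hf : Poly f) : Poly (fun a => gk (f a)) := u_gk.toPoly.comp hf
theorem r_n {f : α → Inp} (hf : Poly f) : Poly (fun a => List.range (gn (f a))) :=
  u_gn.range.comp hf
theorem r_n1 {f : α → Inp} (hf : Poly f) : Poly (fun a => List.range (gn (f a) + 1)) :=
  (UPoly.add u_gn (UPoly.const 1)).range.comp hf
theorem r_k {f : α → Inp} (hf : Poly f) : Poly (fun a => List.range (gk (f a))) :=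
  u_gk.range.comp hf

attribute [local fun_prop] p_gn p_gk r_n r_n1 r_k

/-- the adjacency test of a matrix -/
def adjM (x : Inp) (i j : ℕ) : Bool :=
  decide (i ≠ j) && (entry x.1 i j || entry x.1 j i)

theorem p_entry {f : α → Inp} {i j : α → ℕ} (hf : Poly f) (hi : Poly i) (hj : Poly j) :
    Poly (fun a => entry (f a).1 (i a) (j a)) :=
  Pool.Agent.H257R2.LJW.entry_poly (Poly.fst hf) hi hj

attribute [local fun_prop] p_entry

theorem p_adj {f : α → Inp} {i j : α → ℕ} (hf : Poly f) (hi : Poly i) (hj : Poly j) :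
    Poly (fun a => adjM (f a) (i a) (j a)) := by
  unfold adjM
  fun_prop

attribute [local fun_prop] p_adj

/-- a gadget -/
def gd (i j u1 u2 v1 v2 : ℕ) : Bool × Gad := (true, i, j, u1, u2, v1, v2)

theorem p_gd {i j u1 u2 v1 v2 : α → ℕ} (h1 : Poly i) (h2 : Poly j) (h3 : Poly u1) (h4 : Poly u2)
    (h5 : Poly v1) (h6 : Poly v2) :
    Poly (fun a => gd (i a) (j a) (u1 a) (u2 a) (v1 a) (v2 a)) := by
  unfold gd
  fun_prop

attribute [local fun_prop] p_gd

def lup (x : Inp) : List (Bool × Gad) :=
  (List.range (gk x)).flatMap fun i => (List.range (gn x + 1)).map fun y =>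
    gd i (gk x + i) 1 y 1 (gn x - y)

def lmid (x : Inp) : List (Bool × Gad) :=
  (List.range (gk x)).flatMap fun i => (List.range (gk x)).flatMap fun j =>
    (List.range (gn x)).flatMap fun u => (List.range (gn x)).flatMap fun v =>
      if (decide (i < j) && !adjM x u v) = true then [gd i j (u + 1) (u + 1) (v + 1) (v + 1)] else []

def ldown (x : Inp) : List (Bool × Gad) :=
  (List.range (gk x)).flatMap fun i => (List.range (gn x)).map fun y =>
    gd i (gk x + i) (y + 1) (gn x) (gn x + 1 - y) (gn x)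

theorem p_lup : Poly lup := by unfold lup; fun_prop
theorem p_lmid : Poly lmid := by unfold lmid; fun_prop
theorem p_ldown : Poly ldown := by unfold ldown; fun_prop

/-- the descriptors of the periods -/
def lD (x : Inp) : List (Bool × Gad) :=
  plainE :: (lup x ++ (lmid x ++ (ldown x ++ [plainE])))

theorem lD_eq (x : Inp) : lD x = descr (gk x) (gn x) (adjM x) := rfl

theorem p_lD : Poly lD := by
  have h1 := p_lup
  have h2 := p_lmid
  have h3 := p_ldown
  unfold lD
  fun_prop

theorem p_lD' {f : α → Inp} (hf : Poly f) : Poly (fun a => lD (f a)) := p_lD.comp hf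

attribute [local fun_prop] p_lD'

theorem p_lo {D c : α → ℕ} {g : α → Gad} (hD : Poly D) (hg : Poly g) (hc : Poly c) :
    Poly (fun a => lo (D a) (g a) (c a)) := by
  unfold lo
  fun_prop

theorem p_hi {D c : α → ℕ} {g : α → Gad} (hD : Poly D) (hg : Poly g) (hc : Poly c) :
    Poly (fun a => hi (D a) (g a) (c a)) := by
  unfold hi
  fun_prop

theorem p_pres {c : α → ℕ} {e : α → Bool × Gad} (he : Poly e) (hc : Poly c) :
    Poly (fun a => pres (e a) (c a)) := by
  unfold pres
  fun_prop

attribute [local fun_prop] p_lo p_hi p_pres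

theorem p_rl {m D t c : α → ℕ} {e : α → Bool × Gad} (hm : Poly m) (hD : Poly D) (he : Poly e)
    (ht : Poly t) (hc : Poly c) : Poly (fun a => rl (m a) (D a) (e a) (t a) (c a)) := by
  unfold rl
  fun_prop

theorem p_du {m D t c : α → ℕ} {e : α → Bool × Gad} (hm : Poly m) (hD : Poly D) (he : Poly e)
    (ht : Poly t) (hc : Poly c) : Poly (fun a => du (m a) (D a) (e a) (t a) (c a)) := by
  unfold du
  fun_prop

attribute [local fun_prop] p_rl p_du

/-- job number `q` -/
def jb (x : Inp) (q : ℕ) : ℕ × ℕ :=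
  (rl (2 * gk x) (gn x + 2) ((lD x).getD (q / (2 * gk x + 5)) plainE) (q / (2 * gk x + 5))
    (q % (2 * gk x + 5)),
   du (2 * gk x) (gn x + 2) ((lD x).getD (q / (2 * gk x + 5)) plainE) (q / (2 * gk x + 5))
    (q % (2 * gk x + 5)))

theorem p_jb {f : α → Inp} {q : α → ℕ} (hf : Poly f) (hq : Poly q) :
    Poly (fun a => jb (f a) (q a)) := by
  unfold jb
  fun_prop

attribute [local fun_prop] p_jb

theorem u_jobs : UPoly (fun x : Inp => (lD x).length * (2 * gk x + 5)) :=
  UPoly.mul (UPoly.length p_lD) (UPoly.add (UPoly.mul (UPoly.const 2) u_gk) (UPoly.const 5))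

/-- all jobs -/
def jobs (x : Inp) : List (ℕ × ℕ) :=
  (List.range ((lD x).length * (2 * gk x + 5))).map fun q => jb x q

/-- all jobs, with weight `1` -/
def jobsW (x : Inp) : List (ℕ × ℕ × ℕ) :=
  (List.range ((lD x).length * (2 * gk x + 5))).map fun q => ((jb x q).1, (jb x q).2, 1)

theorem r_jobs {f : α → Inp} (hf : Poly f) :
    Poly (fun a => List.range ((lD (f a)).length * (2 * gk (f a) + 5))) := u_jobs.range.comp hf

attribute [local fun_prop] r_jobs

theorem p_jobs : Poly jobs := by unfold jobs; fun_prop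

theorem p_jobsW : Poly jobsW := by unfold jobsW; fun_prop

/-- the reduction for the weighted problem -/
def redW (x : Inp) : ((ℕ × ℕ) × List (ℕ × ℕ × ℕ)) × ℕ :=
  if x.2 = 0 then (((1, 1), []), 0) else
  if x.2 ≤ x.1.length then
    (((2 * gk x, 2 * gk x * (gn x + 2)), jobsW x), 5 * (lD x).length)
  else (((1, 1), [(0, 0, 1)]), 0)

/-- the reduction for the unweighted problem -/
def redU (x : Inp) : ((ℕ × ℕ) × List (ℕ × ℕ)) × ℕ :=
  if x.2 = 0 then (((1, 1), []), 0) else
  if x.2 ≤ x.1.length then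
    (((2 * gk x, 2 * gk x * (gn x + 2)), jobs x), 5 * (lD x).length)
  else (((1, 1), [(0, 0)]), 0)

theorem redW_poly : Poly redW := by
  have h1 := p_jobsW
  unfold redW
  fun_prop

theorem redU_poly : Poly redU := by
  have h1 := p_jobs
  unfold redU
  fun_prop

end Pool.Agent.TH704.EqLen
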